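import Pool.Agent.K3h2.LT.Stm3

/-!
# Pairs of period two are fixed (ternary tree)
-/

set_option autoImplicit false

namespace Pool.Agent.K3h96.LT

open Pool.Agent.K3h2.LT Filter Topology

theorem summable_half : Summable (fun k : ℤ => ((1 : ℝ) / 2) ^ k.natAbs) := by
  have h : Summable (fun n : ℕ => ((1 : ℝ) / 2) ^ n) :=
    summable_geometric_of_lt_one (by norm_num) (by norm_num)
  refine Summable.of_nat_of_neg ?_ ?_
  · simpa using h
  · simpa using h

theorem summable_dom {C : ℝ} {x : ℤ → ℝ} (h0 : ∀ k, 0 ≤ x k)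
    (h : ∀ k, x k ≤ C * (1 / 2) ^ k.natAbs) : Summable x :=
  Summable.of_nonneg_of_le h0 h (summable_half.mul_left C)

theorem le_C {C : ℝ} {x : ℤ → ℝ} (h0 : ∀ k, 0 ≤ x k)
    (h : ∀ k, x k ≤ C * (1 / 2) ^ k.natAbs) (k : ℤ) : x k ≤ C := by
  have hC : 0 ≤ C := by
    have h1 := (h0 0).trans (h 0)
    simpa using h1
  have h2 : ((1 : ℝ) / 2) ^ k.natAbs ≤ 1 := pow_le_one₀ (by norm_num) (by norm_num)
  calc x k ≤ C * (1 / 2) ^ k.natAbs := h k
    _ ≤ C * 1 := mul_le_mul_of_nonneg_left h2 hC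
    _ = C := mul_one C

theorem zeros {L : ℝ} {x y : ℤ → ℝ} (hy : ∀ k, 0 ≤ y k)
    (ex : ∀ k, L * x k = y (k - 1) ^ 3 + y k ^ 3 + y (k + 1) ^ 3) (k : ℤ) (hk : x k = 0) :
    y (k - 1) = 0 ∧ y k = 0 ∧ y (k + 1) = 0 := by
  have h1 := ex k
  rw [hk, mul_zero] at h1
  have ha := pow_nonneg (hy (k - 1)) 3
  have hb := pow_nonneg (hy k) 3
  have hc := pow_nonneg (hy (k + 1)) 3
  refine ⟨?_, ?_, ?_⟩
  · exact pow_eq_zero_iff (three_ne_zero) |>.mp (by linarith)
  · exact pow_eq_zero_iff (three_ne_zero) |>.mp (by linarith)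
  · exact pow_eq_zero_iff (three_ne_zero) |>.mp (by linarith)

theorem t_CYC3 : S3_NEG → S3_CYC := by
  intro hNEG C L x y hL hx hy hxC hyC hq ey ex
  have hz := zeros hy ex
  have hz' := zeros hx ey
  have hxne : ∀ k, x k ≠ 0 := by
    intro k hk
    have hall : ∀ j : ℤ, x (k + j) = 0 := by
      intro j
      induction j using Int.induction_on with
      | zero => rw [add_zero]; exact hk
      | succ i ih =>
        have h1 := (hz' _ (hz _ ih).2.1).2.2
        rw [← add_assoc]
        exact h1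
      | pred i ih =>
        have h1 := (hz' _ (hz _ ih).2.1).1
        have h2 : k + (-(i : ℤ) - 1) = k + -(i : ℤ) - 1 := by ring
        rw [h2]
        exact h1
    have h0 : ∀ j, x j = 0 := fun j => by
      have := hall (j - k)
      rwa [add_sub_cancel] at this
    have h1 : HasSum (fun k => x k ^ 4) 0 := by
      have h2 : (fun k => x k ^ 4) = fun _ => (0 : ℝ) := by
        funext j
        rw [h0 j]
        norm_num
      rw [h2]
      exact hasSum_zero
    exact one_ne_zero (hq.unique h1)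
  have hxp : ∀ k, 0 < x k := fun k => lt_of_le_of_ne (hx k) (Ne.symm (hxne k))
  have hyp : ∀ k, 0 < y k := fun k =>
    lt_of_le_of_ne (hy k) (fun h => hxne k (hz' k h.symm).2.1)
  have hxy0 : ∀ k, x k - y k = 0 := by
    refine hNEG L C x y (fun k => x k - y k) hL hxp hyp (summable_dom hx hxC)
      (summable_dom hy hyC) ey ex (fun k => ?_) (fun G hG k => ?_)
    · have h1 := le_C hx hxC k
      have h2 := le_C hy hyC k
      rw [abs_le]
      exact ⟨by linarith [hx k, hy k], by linarith [hx k, hy k]⟩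
    · show L * (x k - y k) = _
      rw [mul_sub, ex k, ey k, hG (k - 1), hG k, hG (k + 1)]
      ring
  have hxy : x = y := funext fun k => sub_eq_zero.mp (hxy0 k)
  refine ⟨⟨hxp, hxC, hq, fun k => ?_⟩, hxy⟩
  have h1 := ex k
  rw [← hxy] at h1
  exact h1

end Pool.Agent.K3h96.LT
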